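import Pool.Agent.T2h60.LL.Base

/-!
LD: admissibility, for finitely many harmonic vectors.
-/

set_option autoImplicit false

noncomputable section

open WithZero Pool.Agent.T2h66.LL

namespace Pool.Agent.T2h60.LL

variable {F : Type} [Field F] {v : Valuation F ℤᵐ⁰} {ϖ : Fˣ}
variable {V : Type} [AddCommGroup V] [Module ℂ V] {ρ : Representation ℂ (GL (Fin 2) F) V}

/-- finitely many residues -/
theorem exists_residues (hϖ : v ϖ = exp (-1 : ℤ)) (hR : Res2 v) (r : ℕ) :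
    ∃ D : Finset F, (∀ d ∈ D, v d ≤ 1) ∧ ∀ a : F, v a ≤ 1 → ∃ d ∈ D, v (a - d) ≤ exp (-(r : ℤ)) := by
  classical
  induction r with
  | zero =>
    refine ⟨{0}, by simp, fun a ha => ⟨0, by simp, ?_⟩⟩
    simpa using ha
  | succ r ih =>
    obtain ⟨D, hD0, hD⟩ := ih
    refine ⟨D ∪ D.image (fun d => d + ((ϖ ^ (r : ℤ) : Fˣ) : F)), ?_, fun a ha => ?_⟩
    · intro d hd
      rcases Finset.mem_union.1 hd with h | h
      · exact hD0 d h
      · obtain ⟨d', hd', rfl⟩ := Finset.mem_image.1 h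
        refine (v.map_add _ _).trans (max_le (hD0 d' hd') ?_)
        rw [v_zpow hϖ, ← exp_zero, exp_le_exp]; omega
    · obtain ⟨d, hd, h1⟩ := hD a ha
      rcases eq_or_lt_of_le h1 with h2 | h2
      · refine ⟨d + ((ϖ ^ (r : ℤ) : Fˣ) : F), Finset.mem_union_right _
          (Finset.mem_image.2 ⟨d, hd, rfl⟩), ?_⟩
        have h3 : v ((a - d) / ((ϖ ^ (r : ℤ) : Fˣ) : F)) = 1 := by
          rw [map_div₀, h2, v_zpow hϖ, div_self]
          exact exp_ne_zero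
        have h4 := hR _ h3
        have hne : ((ϖ ^ (r : ℤ) : Fˣ) : F) ≠ 0 := Units.ne_zero _
        have h5 : a - (d + ((ϖ ^ (r : ℤ) : Fˣ) : F)) =
            ((a - d) / ((ϖ ^ (r : ℤ) : Fˣ) : F) - 1) * ((ϖ ^ (r : ℤ) : Fˣ) : F) := by
          rw [sub_mul, div_mul_cancel₀ _ hne]; ring
        rw [h5, map_mul, v_zpow hϖ]
        have h6 : v ((a - d) / ((ϖ ^ (r : ℤ) : Fˣ) : F) - 1) ≤ exp (-1 : ℤ) := by
          rcases eq_or_ne (v ((a - d) / ((ϖ ^ (r : ℤ) : Fˣ) : F) - 1)) 0 with h0 | h0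
          · rw [h0]; exact zero_le
          · rw [← exp_log h0] at h4 ⊢
            rw [← exp_zero, exp_lt_exp] at h4
            rw [exp_le_exp]; omega
        calc v ((a - d) / ((ϖ ^ (r : ℤ) : Fˣ) : F) - 1) * exp (-(r : ℤ))
            ≤ exp (-1 : ℤ) * exp (-(r : ℤ)) := mul_le_mul_left h6 _
          _ = exp (-((r + 1 : ℕ) : ℤ)) := by rw [← exp_add]; congr 1; push_cast; ring
      · refine ⟨d, Finset.mem_union_left _ hd, ?_⟩
        rcases eq_or_ne (v (a - d)) 0 with h0 | h0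
        · rw [h0]; exact zero_le
        · rw [← exp_log h0] at h2 ⊢
          rw [exp_lt_exp] at h2
          rw [exp_le_exp]; push_cast; omega

theorem t_LD : S_LA → S_LP → S_LD := by
  classical
  intro hA hP F _ v ϖ hϖ hR V _ _ ρ s hs r
  -- level at least one
  set R : ℕ := max r 1 with hRdef
  have hR1 : 1 ≤ R := le_max_right _ _
  have hrR : r ≤ R := le_max_left _ _
  obtain ⟨D, -, hD⟩ := exists_residues hϖ hR R
  set E₀ : Submodule ℂ V := Submodule.span ℂ {z | ∃ x ∈ s, ∃ a : F, v a ≤ 1 ∧ z = vb ϖ ρ x a R}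
    with hE₀
  have hfin : FiniteDimensional ℂ E₀ := by
    have h1 : {z | ∃ x ∈ s, ∃ a : F, v a ≤ 1 ∧ z = vb ϖ ρ x a R} ⊆
        ((s ×ˢ D).image (fun p => vb ϖ ρ p.1 p.2 R) : Finset V) := by
      rintro z ⟨x, hx, a, ha, rfl⟩
      obtain ⟨d, hd, h2⟩ := hD a ha
      obtain ⟨h3, -⟩ := hA F v ϖ hϖ hR V ρ x (hs x hx)
      refine Finset.mem_coe.2 (Finset.mem_image.2 ⟨(x, d), Finset.mem_product.2 ⟨hx, hd⟩, ?_⟩)
      have h4 := h3 d (a - d) R h2
      rw [add_sub_cancel] at h4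
      exact h4.symm
    exact FiniteDimensional.span_of_finite ℂ ((Finset.finite_toSet _).subset h1)
  refine ⟨E₀ ⊔ E₀.map (ρ om), inferInstance, fun y hy hfix => ?_⟩
  have hfixU : ∀ b : F, v b ≤ exp (-(R : ℤ)) → ρ (nU b) y = y := fun b hb =>
    hfix _ (nU_mem_Gr (hb.trans (by rw [exp_le_exp]; omega)))
  have hfixL : ∀ b : F, v b ≤ exp (-(R : ℤ)) → ρ (nU b) (ρ om y) = ρ om y := fun b hb => by
    rw [rho_nU_om, hfix _ (lower_mem_Gr (hb.trans (by rw [exp_le_exp]; omega)))]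
  have hs' : ∀ x ∈ (s : Set V), Harm v ϖ ρ x := hs
  obtain ⟨u, hu⟩ := mem_TT (s := (s : Set V)) hA hϖ hR hs' (l := (R : ℤ)) (by omega) hy
  obtain ⟨y₁, hy₁, w, ⟨y₂, hy₂, rfl⟩, rfl⟩ := Submodule.mem_sup.1 hu
  set n : ℕ := (u - R).toNat with hn
  have hun : u ≤ (R : ℤ) + n := by omega
  set c : ℂ := (2 : ℂ) ^ n with hc
  have hc0 : c ≠ 0 := pow_ne_zero _ two_ne_zero
  have hval : ∀ i : ℕ, v ((ϖ ^ ((R : ℤ) + (i : ℤ)) : Fˣ) : F) ≤ exp (-(R : ℤ)) := fun i => by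
    rw [v_zpow hϖ, exp_le_exp]; omega
  have hval1 : ∀ i : ℕ, v ((ϖ ^ ((R : ℤ) + (i : ℤ)) : Fˣ) : F) ≤ 1 := fun i =>
    (hval i).trans (by rw [← exp_zero, exp_le_exp]; omega)
  -- `P y₁`
  have e1 : Pop ϖ ρ R n y₁ ∈ E₀ := by
    refine avg_span hP hϖ hR hs' (fun a => v a ≤ 1) (le_refl (R : ℤ)) n ?_
    refine Submodule.span_mono ?_ hy₁
    rintro z ⟨x, hx, a, j, h1, h2, h3, h4⟩
    exact ⟨x, hx, a, j, h1, h2, h3.trans hun, h4⟩
  -- `P om y₂`
  obtain ⟨y₃, hy₃, e2⟩ := Pop_B2 hP hϖ hR hs' (r := (R : ℤ)) (l := (R : ℤ)) (u := u) (by omega)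
    (by omega) n hy₂
  have e3 : Pop ϖ ρ R n y₃ ∈ E₀ := by
    have h1 := avg_span hP hϖ hR hs' (fun a => v a < 1) (le_refl (R : ℤ)) n (y := y₃) (by
      refine Submodule.span_mono ?_ hy₃
      rintro z ⟨x, hx, a, j, h1, h2, h3, h4⟩
      exact ⟨x, hx, a, j, h1, h2, h3.trans hun, h4⟩)
    refine Submodule.span_mono ?_ h1
    rintro z ⟨x, hx, a, h1, h2⟩
    exact ⟨x, hx, a, h1.le, h2⟩
  -- `P y = c y`
  set y : V := y₁ + ρ om y₂ with hydef
  have e4 : Pop ϖ ρ R n y = c • y := Pop_fix _ _ _ fun i => hfixU _ (hval i)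
  have e5 : c • y = Pop ϖ ρ R n y₁ + ρ om y₃ := by
    rw [← e4, hydef, map_add, e2]
  -- `P om z = c om z` on `E₀`
  have e6 : ∀ z ∈ E₀, Pop ϖ ρ R n (ρ om z) = c • ρ om z := by
    intro z hz
    refine Pop_fix _ _ _ fun i => ?_
    refine Submodule.span_induction ?_ ?_ ?_ ?_ hz
    · rintro w ⟨x, hx, a, ha, rfl⟩
      obtain ⟨h3, -⟩ := hA F v ϖ hϖ hR V ρ x (hs x hx)
      obtain ⟨-, h4⟩ := hP F v ϖ hϖ hR V ρ x (hs x hx)
      set b : F := ((ϖ ^ ((R : ℤ) + (i : ℤ)) : Fˣ) : F) with hb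
      have hbR : v b ≤ exp (-(R : ℤ)) := hval i
      have hlt : exp (-(R : ℤ)) < (1 : ℤᵐ⁰) := by rw [← exp_zero, exp_lt_exp]; omega
      have hb1 : v b < 1 := lt_of_le_of_lt hbR hlt
      have hab : v (a * b) < 1 := by
        rw [map_mul]
        exact lt_of_le_of_lt (mul_le_of_le_one_left' ha) hb1
      have hbj : v b * exp (-(R : ℤ)) < 1 :=
        lt_of_le_of_lt (mul_le_of_le_one_right' hlt.le) hb1
      rw [rho_nU_om, h4 a b R hab hbj]
      have h5 : v (1 + a * b) = 1 := by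
        rw [Valuation.map_add_eq_of_lt_left _ (by rw [map_one]; exact hab), map_one]
      have hne : (1 + a * b) ≠ 0 := fun h0 => by rw [h0, map_zero] at h5; exact zero_ne_one h5
      have h6 : a / (1 + a * b) = a + -(a * (a * b)) / (1 + a * b) := by
        field_simp
        ring
      have h7 : v (-(a * (a * b)) / (1 + a * b)) ≤ exp (-(R : ℤ)) := by
        rw [map_div₀, h5, div_one, Valuation.map_neg, map_mul, map_mul]
        exact (mul_le_of_le_one_left' ha).trans ((mul_le_of_le_one_left' ha).trans hbR)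
      rw [h6, h3 _ _ _ h7]
    · simp
    · intro z w _ _ h1 h2
      rw [map_add, map_add, h1, h2]
    · intro k z _ h1
      rw [map_smul, map_smul, h1]
  -- apply `om P om`
  have e7 : Pop ϖ ρ R n (ρ om y) = c • ρ om y := Pop_fix _ _ _ fun i => hfixL _ (hval i)
  have e8 : c • (c • ρ om y) = c • ρ om (Pop ϖ ρ R n y₁) + Pop ϖ ρ R n y₃ := by
    rw [← e7, ← map_smul, ← map_smul, e5, map_add, rho_om_om, map_add, e6 _ e1]
  have e9 : c • (c • y) = c • Pop ϖ ρ R n y₁ + ρ om (Pop ϖ ρ R n y₃) := by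
    have := congrArg (ρ om) e8
    rw [map_smul, map_smul, rho_om_om, map_add, map_smul, rho_om_om] at this
    exact this
  have e10 : c • (c • y) ∈ E₀ ⊔ E₀.map (ρ om) := by
    rw [e9]
    exact Submodule.add_mem _ (Submodule.mem_sup_left (Submodule.smul_mem _ _ e1))
      (Submodule.mem_sup_right ⟨_, e3, rfl⟩)
  exact (Submodule.smul_mem_iff _ hc0).1 ((Submodule.smul_mem_iff _ hc0).1 e10)

end Pool.Agent.T2h60.LL
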