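import Pool.Agent.T2h60.LL.Base

/-!
LE: a representation generated by a harmonic vector has no nonzero vector fixed by `GL_2(O)`.
-/

set_option autoImplicit false

noncomputable section

open WithZero Pool.Agent.T2h66.LL

namespace Pool.Agent.T2h60.LL

variable {F : Type} [Field F] {v : Valuation F ℤᵐ⁰} {ϖ : Fˣ}
variable {V : Type} [AddCommGroup V] [Module ℂ V] {ρ : Representation ℂ (GL (Fin 2) F) V}

theorem GO_sub_Gr : ∀ g ∈ Gr v 0, g ∈ GO v := fun _ h => h.1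

theorem t_LE : S_LA → S_LP → S_LE := by
  intro hA hP F _ v ϖ hϖ hR V _ _ ρ x hx hgen y hfix
  have hs : ∀ z ∈ ({x} : Set V), Harm v ϖ ρ z := by
    intro z hz
    rw [Set.mem_singleton_iff] at hz
    rw [hz]; exact hx
  have hy : y ∈ Submodule.span ℂ {z | ∃ x' ∈ ({x} : Set V), ∃ g : GL (Fin 2) F, z = ρ g x'} := by
    have h1 : y ∈ Submodule.span ℂ (Set.range fun g => ρ g x) := by
      rw [hgen]; exact Submodule.mem_top
    refine Submodule.span_mono ?_ h1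
    rintro _ ⟨g, rfl⟩
    exact ⟨x, rfl, g, rfl⟩
  obtain ⟨h1, h2, h3, -, h5, -⟩ := hA F v ϖ hϖ hR V ρ x hx
  obtain ⟨hp1, -⟩ := hP F v ϖ hϖ hR V ρ x hx
  obtain ⟨u, hu⟩ := mem_TT hA hϖ hR hs (l := 1) (by omega) hy
  obtain ⟨y₁, hy₁, w, ⟨y₂, hy₂, rfl⟩, rfl⟩ := Submodule.mem_sup.1 hu
  set n : ℕ := (max u 1).toNat with hn
  have hun : u ≤ (0 : ℤ) + n := by omega
  have hn1 : 1 ≤ n := by omega
  set c : ℂ := (2 : ℂ) ^ n with hc
  have hc0 : c ≠ 0 := pow_ne_zero _ two_ne_zero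
  -- `v[0,0] = x`
  have hx0 : vb ϖ ρ x 0 0 = x := by
    have : (nU (0 : F) * da (ϖ ^ (0 : ℤ)) : GL (Fin 2) F) = 1 := by
      ext i j
      fin_cases i <;> fin_cases j <;>
        simp [nU, da, bor, Matrix.mul_apply, Fin.sum_univ_two]
    unfold vb
    rw [this, map_one, Module.End.one_apply]
  have hxa : ∀ a : F, v a ≤ 1 → vb ϖ ρ x a 0 = x := by
    intro a ha
    have := h1 0 a 0 (by simpa using ha)
    rw [zero_add] at this
    rw [this, hx0]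
  -- averages are multiples of `x`
  have avg : ∀ z ∈ Submodule.span ℂ {z | ∃ x' ∈ ({x} : Set V), ∃ (a : F) (j : ℤ), v a ≤ 1 ∧ 1 ≤ j ∧
      j ≤ (0 : ℤ) + n ∧ z = vb ϖ ρ x' a j}, ∃ k : ℂ, Pop ϖ ρ 0 n z = k • x := by
    intro z hz
    have h4 := avg_span hP hϖ hR hs (fun a => v a ≤ 1) (r := 0) (l := 1) (by omega) n hz
    have h6 : {z | ∃ x' ∈ ({x} : Set V), ∃ a : F, v a ≤ 1 ∧ z = vb ϖ ρ x' a 0} ⊆ {x} := by
      rintro z ⟨x', hx', a, ha, rfl⟩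
      rw [Set.mem_singleton_iff] at hx' ⊢
      rw [hx', hxa a ha]
    obtain ⟨k, hk⟩ := Submodule.mem_span_singleton.1 (Submodule.span_mono h6 h4)
    exact ⟨k, hk.symm⟩
  obtain ⟨k₁, hk₁⟩ := avg y₁ (by
    refine Submodule.span_mono ?_ hy₁
    rintro z ⟨x', hx', a, j, e1, e2, e3, e4⟩
    exact ⟨x', hx', a, j, e1, e2, e3.trans hun, e4⟩)
  obtain ⟨y₃, hy₃, e2⟩ := Pop_B2 hP hϖ hR hs (r := 0) (l := 1) (u := u) (by omega)
    (by omega) n hy₂
  obtain ⟨k₂, hk₂⟩ := avg y₃ (by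
    refine Submodule.span_mono ?_ hy₃
    rintro z ⟨x', hx', a, j, e1, e2, e3, e4⟩
    exact ⟨x', hx', a, j, e1.le, e2, e3.trans hun, e4⟩)
  set y : V := y₁ + ρ om y₂ with hydef
  have hom : ρ om y = y := hfix _ om_mem_GO
  have hPy : Pop ϖ ρ 0 n y = c • y := Pop_fix _ _ _ fun i => hfix _
    (nU_mem_Gr (r := 0) (by
      rw [v_zpow hϖ, exp_le_exp]; push_cast; omega)).1
  have e5 : c • y = k₁ • x + ρ om y₃ := by
    rw [← hPy, hydef, map_add, e2, hk₁]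
  -- `om x = - v[0,1]`
  have hox : ρ om x = -vb ϖ ρ x 0 1 := by
    have := h3 0
    rw [hx0, sub_zero] at this
    exact this
  have e6 : c • y = -(k₁ • vb ϖ ρ x 0 1) + y₃ := by
    have := congrArg (ρ om) e5
    rw [map_smul, hom, map_add, map_smul, hox, rho_om_om, smul_neg] at this
    exact this
  obtain ⟨ν, hν⟩ : ∃ ν : ℂ, y = ν • x := by
    have h7 := congrArg (Pop ϖ ρ 0 n) e6
    have h8 : Pop ϖ ρ 0 n (vb ϖ ρ x 0 1) = (2 : ℂ) ^ (n - 1) • x := by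
      have := hp1 0 0 n 1 hn1
      rw [hx0] at this
      exact this
    rw [map_smul, hPy, map_add, map_neg, map_smul, h8, hk₂] at h7
    have h9 : c • (c • y) = (-(k₁ * 2 ^ (n - 1)) + k₂) • x := by
      rw [h7, add_smul, neg_smul, mul_smul]
    refine ⟨c⁻¹ * (c⁻¹ * (-(k₁ * 2 ^ (n - 1)) + k₂)), ?_⟩
    rw [mul_smul, mul_smul, ← h9, inv_smul_smul₀ hc0, inv_smul_smul₀ hc0]
  -- the relations
  have hxs : x = vb ϖ ρ x 0 1 + vb ϖ ρ x 1 1 := by
    have := h2 0 0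
    rw [hx0, zpow_zero, Units.val_one, zero_add, zero_add] at this
    exact this
  have r1 : ν • ((2 : ℂ) • vb ϖ ρ x 0 1 + vb ϖ ρ x 1 1) = 0 := by
    have h7 : ν • (-vb ϖ ρ x 0 1) = ν • (vb ϖ ρ x 0 1 + vb ϖ ρ x 1 1) := by
      rw [← hxs, ← hox, ← map_smul, ← hν, hom]
    have h8 : ν • ((2 : ℂ) • vb ϖ ρ x 0 1 + vb ϖ ρ x 1 1) =
        ν • (vb ϖ ρ x 0 1 + vb ϖ ρ x 1 1) - ν • (-vb ϖ ρ x 0 1) := by
      rw [← smul_sub, two_smul]
      congr 1
      abel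
    rw [h8, h7, sub_self]
  have hU : ∀ a : F, ρ (nU 1) (vb ϖ ρ x a 1) = vb ϖ ρ x (a + 1) 1 := by
    intro a
    unfold vb
    rw [← Module.End.mul_apply, ← map_mul, ← mul_assoc]
    congr 3
    ext i j
    fin_cases i <;> fin_cases j <;>
      simp [nU, Matrix.mul_apply, Fin.sum_univ_two]
  have h22 : v (1 + 1 : F) ≤ exp (-1 : ℤ) := by
    have h7 := hR (-1) (by rw [Valuation.map_neg, map_one])
    have h8 : v (1 + 1 : F) < 1 := by
      rw [← Valuation.map_neg]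
      convert h7 using 2
      ring
    rcases eq_or_ne (v (1 + 1 : F)) 0 with h0 | h0
    · rw [h0]; exact zero_le
    · rw [← exp_log h0] at h8 ⊢
      rw [← exp_zero, exp_lt_exp] at h8
      rw [exp_le_exp]; omega
  have hv2 : vb ϖ ρ x (1 + 1) 1 = vb ϖ ρ x 0 1 := by
    have := h1 0 (1 + 1) 1 h22
    rw [zero_add] at this
    exact this
  have r2 : ν • ((2 : ℂ) • vb ϖ ρ x 1 1 + vb ϖ ρ x 0 1) = 0 := by
    have := congrArg (ρ (nU 1)) r1
    rw [map_smul, map_add, map_smul, hU, hU, zero_add, hv2, map_zero] at this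
    exact this
  rw [hν]
  have h3x : (3 : ℂ) • (ν • x) = 0 := by
    have h7 : (3 : ℂ) • (ν • x) = ν • ((2 : ℂ) • vb ϖ ρ x 0 1 + vb ϖ ρ x 1 1) +
        ν • ((2 : ℂ) • vb ϖ ρ x 1 1 + vb ϖ ρ x 0 1) := by
      conv_lhs => rw [hxs]
      module
    rw [h7, r1, r2, add_zero]
  exact (smul_eq_zero.1 h3x).resolve_left (by norm_num)

end Pool.Agent.T2h60.LL
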