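import Pool.Agent.T2h66.LL.Stm

/-!
Spans of the vectors of balls; common part of the tasks LD and LE.
-/

set_option autoImplicit false

noncomputable section

open WithZero Pool.Agent.T2h66.LL

namespace Pool.Agent.T2h60.LL

variable {F : Type} [Field F] {v : Valuation F ℤᵐ⁰} {ϖ : Fˣ}
variable {V : Type} [AddCommGroup V] [Module ℂ V] {ρ : Representation ℂ (GL (Fin 2) F) V}

theorem om_om {R : Type} [CommRing R] : (om : GL (Fin 2) R) * om = 1 := by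
  ext i j
  fin_cases i <;> fin_cases j <;>
    simp [om, Matrix.mul_apply, Fin.sum_univ_two]

theorem rho_om_om (y : V) : ρ om (ρ om y) = y := by
  rw [← Module.End.mul_apply, ← map_mul, om_om, map_one, Module.End.one_apply]

theorem rho_nU_om (b : F) (y : V) : ρ (nU b) (ρ om y) = ρ om (ρ (om * nU b * om) y) := by
  rw [← Module.End.mul_apply, ← Module.End.mul_apply, ← map_mul, ← map_mul]
  congr 2
  rw [mul_assoc om, ← mul_assoc om om, om_om, one_mul]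

theorem v_zpow (hϖ : v ϖ = exp (-1 : ℤ)) (k : ℤ) : v ((ϖ ^ k : Fˣ) : F) = exp (-k) := by
  rw [Units.val_zpow_eq_zpow_val, map_zpow₀, hϖ, ← exp_zsmul]
  congr 1
  simp

/-- the products fix what all factors fix -/
theorem Pop_fix (r : ℤ) (y : V) (n : ℕ)
    (h : ∀ i : ℕ, ρ (nU ((ϖ ^ (r + (i : ℤ)) : Fˣ) : F)) y = y) :
    Pop ϖ ρ r n y = (2 : ℂ) ^ n • y := by
  induction n with
  | zero => simp [Pop]
  | succ n ih =>
    have h1 : Pop ϖ ρ r (n + 1) y =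
        Pop ϖ ρ r n (y + ρ (nU ((ϖ ^ (r + (n : ℤ)) : Fˣ) : F)) y) := rfl
    rw [h1, h n, map_add, ih, pow_succ, mul_smul, two_smul, smul_add]

/-- the products preserve what all factors preserve -/
theorem Pop_mem (r : ℤ) (W : Submodule ℂ V) (n : ℕ)
    (h : ∀ i : ℕ, ∀ y ∈ W, ρ (nU ((ϖ ^ (r + (i : ℤ)) : Fˣ) : F)) y ∈ W) :
    ∀ y ∈ W, Pop ϖ ρ r n y ∈ W := by
  induction n with
  | zero => intro y hy; exact hy
  | succ n ih =>
    intro y hy
    have h1 : Pop ϖ ρ r (n + 1) y =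
        Pop ϖ ρ r n (y + ρ (nU ((ϖ ^ (r + (n : ℤ)) : Fˣ) : F)) y) := rfl
    rw [h1]
    exact ih _ (W.add_mem hy (h n y hy))

/-- the vectors of the balls with centre of value at most one and bounded level -/
def B1 (v : Valuation F ℤᵐ⁰) (ϖ : Fˣ) (ρ : Representation ℂ (GL (Fin 2) F) V) (s : Set V)
    (l u : ℤ) : Set V :=
  {z | ∃ x ∈ s, ∃ (a : F) (j : ℤ), v a ≤ 1 ∧ l ≤ j ∧ j ≤ u ∧ z = vb ϖ ρ x a j}

/-- the vectors of the balls with centre of value less than one and bounded level -/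
def B2 (v : Valuation F ℤᵐ⁰) (ϖ : Fˣ) (ρ : Representation ℂ (GL (Fin 2) F) V) (s : Set V)
    (l u : ℤ) : Set V :=
  {z | ∃ x ∈ s, ∃ (a : F) (j : ℤ), v a < 1 ∧ l ≤ j ∧ j ≤ u ∧ z = vb ϖ ρ x a j}

/-- sums of both kinds -/
def TT (v : Valuation F ℤᵐ⁰) (ϖ : Fˣ) (ρ : Representation ℂ (GL (Fin 2) F) V) (s : Set V)
    (l u : ℤ) : Submodule ℂ V :=
  Submodule.span ℂ (B1 v ϖ ρ s l u) ⊔ (Submodule.span ℂ (B2 v ϖ ρ s l u)).map (ρ om)

theorem TT_mono (s : Set V) (l : ℤ) {u u' : ℤ} (h : u ≤ u') :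
    TT v ϖ ρ s l u ≤ TT v ϖ ρ s l u' := by
  refine sup_le_sup (Submodule.span_mono ?_) (Submodule.map_mono (Submodule.span_mono ?_))
  · rintro z ⟨x, hx, a, j, h1, h2, h3, h4⟩
    exact ⟨x, hx, a, j, h1, h2, h3.trans h, h4⟩
  · rintro z ⟨x, hx, a, j, h1, h2, h3, h4⟩
    exact ⟨x, hx, a, j, h1, h2, h3.trans h, h4⟩

theorem lt_one_iff {x : ℤᵐ⁰} (hx : x ≠ 0) : x = exp (-(-log x)) := by
  rw [neg_neg, exp_log hx]

section main

variable (hA : S_LA) (hϖ : v ϖ = exp (-1 : ℤ)) (hR : Res2 v) {s : Set V}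
  (hs : ∀ x ∈ s, Harm v ϖ ρ x)

include hA hϖ hR hs

theorem vb_mem_TT_of_le {l : ℤ} (hl : 0 ≤ l) {x : V} (hx : x ∈ s) (a : F) (m : ℤ) (hm : l ≤ m) :
    ∃ u : ℤ, vb ϖ ρ x a m ∈ TT v ϖ ρ s l u := by
  obtain ⟨-, -, -, h4, -, -⟩ := hA F v ϖ hϖ hR V ρ x (hs x hx)
  rcases le_or_gt (v a) 1 with ha | ha
  · exact ⟨m, Submodule.mem_sup_left (Submodule.subset_span ⟨x, hx, a, m, ha, hm, le_rfl, rfl⟩)⟩
  · have ha0 : v a ≠ 0 := (lt_trans zero_lt_one ha).ne'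
    set k : ℤ := -log (v a) with hk
    have hak : v a = exp (-k) := lt_one_iff ha0
    have hk0 : k < 0 := by
      rw [hak, ← exp_zero, exp_lt_exp] at ha
      omega
    have h5 := h4 a m k hak (by omega)
    refine ⟨m - 2 * k, Submodule.mem_sup_right ⟨vb ϖ ρ x a⁻¹ (m - 2 * k), ?_, ?_⟩⟩
    · refine Submodule.subset_span ⟨x, hx, a⁻¹, m - 2 * k, ?_, by omega, le_rfl, rfl⟩
      rw [map_inv₀, hak, ← exp_neg, ← exp_zero, exp_lt_exp]
      omega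
    · rw [← h5, rho_om_om]

theorem vb_mem_TT {l : ℤ} (hl : 0 ≤ l) {x : V} (hx : x ∈ s) (a : F) (m : ℤ) :
    ∃ u : ℤ, vb ϖ ρ x a m ∈ TT v ϖ ρ s l u := by
  have key : ∀ (n : ℕ) (a : F) (m : ℤ), l - m ≤ n → ∃ u : ℤ, vb ϖ ρ x a m ∈ TT v ϖ ρ s l u := by
    intro n
    induction n with
    | zero =>
      intro a m h
      exact vb_mem_TT_of_le hA hϖ hR hs hl hx a m (by push_cast at h; omega)
    | succ n ih =>
      intro a m h
      obtain ⟨-, h2, -, -, -, -⟩ := hA F v ϖ hϖ hR V ρ x (hs x hx)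
      obtain ⟨u, hu⟩ := ih a (m + 1) (by push_cast at h; omega)
      obtain ⟨u', hu'⟩ := ih (a + ((ϖ ^ m : Fˣ) : F)) (m + 1) (by push_cast at h; omega)
      refine ⟨max u u', ?_⟩
      rw [h2 a m]
      exact Submodule.add_mem _ (TT_mono s l (le_max_left _ _) hu)
        (TT_mono s l (le_max_right _ _) hu')
  exact key (l - m).toNat a m (Int.self_le_toNat _)

/-- all vectors of the representation generated by harmonic vectors -/
theorem mem_TT {l : ℤ} (hl : 0 ≤ l) {y : V}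
    (hy : y ∈ Submodule.span ℂ {z | ∃ x ∈ s, ∃ g : GL (Fin 2) F, z = ρ g x}) :
    ∃ u : ℤ, y ∈ TT v ϖ ρ s l u := by
  refine Submodule.span_induction ?_ ⟨0, Submodule.zero_mem _⟩ ?_ ?_ hy
  · rintro z ⟨x, hx, g, rfl⟩
    obtain ⟨-, -, -, -, -, h6⟩ := hA F v ϖ hϖ hR V ρ x (hs x hx)
    obtain ⟨c, -, a, m, h⟩ := h6 g
    obtain ⟨u, hu⟩ := vb_mem_TT hA hϖ hR hs hl hx a m
    exact ⟨u, by rw [h]; exact Submodule.smul_mem _ _ hu⟩
  · rintro y z - - ⟨u, hu⟩ ⟨u', hu'⟩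
    exact ⟨max u u', Submodule.add_mem _ (TT_mono s l (le_max_left _ _) hu)
      (TT_mono s l (le_max_right _ _) hu')⟩
  · rintro c y - ⟨u, hu⟩
    exact ⟨u, Submodule.smul_mem _ _ hu⟩

end main

section avg

variable (hP : S_LP) (hϖ : v ϖ = exp (-1 : ℤ)) (hR : Res2 v) {s : Set V}
  (hs : ∀ x ∈ s, Harm v ϖ ρ x)

include hP hϖ hR hs

/-- averages of vectors of balls -/
theorem avg_span (P : F → Prop) {r l : ℤ} (hrl : r ≤ l) (n : ℕ) {y : V}
    (hy : y ∈ Submodule.span ℂ {z | ∃ x ∈ s, ∃ (a : F) (j : ℤ), P a ∧ l ≤ j ∧ j ≤ r + n ∧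
      z = vb ϖ ρ x a j}) :
    Pop ϖ ρ r n y ∈ Submodule.span ℂ {z | ∃ x ∈ s, ∃ a : F, P a ∧ z = vb ϖ ρ x a r} := by
  refine Submodule.span_induction ?_ ?_ ?_ ?_ hy
  · rintro z ⟨x, hx, a, j, ha, h1, h2, rfl⟩
    obtain ⟨h3, -⟩ := hP F v ϖ hϖ hR V ρ x (hs x hx)
    obtain ⟨i, hi⟩ : ∃ i : ℕ, j = r + (i : ℤ) := ⟨(j - r).toNat, by omega⟩
    rw [hi, h3 a r n i (by omega)]
    exact Submodule.smul_mem _ _ (Submodule.subset_span ⟨x, hx, a, ha, rfl⟩)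
  · rw [map_zero]; exact Submodule.zero_mem _
  · intro y z _ _ h1 h2
    rw [map_add]; exact Submodule.add_mem _ h1 h2
  · intro c y _ h1
    rw [map_smul]; exact Submodule.smul_mem _ _ h1

omit hs in
/-- `U(b)` on the balls of the second kind -/
theorem lower_B2 {x : V} (hx : Harm v ϖ ρ x) {a b : F} {j : ℤ} (ha : v a < 1) (hb : v b ≤ 1)
    (hj : 1 ≤ j) :
    ρ (nU b) (ρ om (vb ϖ ρ x a j)) = ρ om (vb ϖ ρ x (a / (1 + a * b)) j) ∧
      v (a / (1 + a * b)) < 1 := by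
  obtain ⟨-, h2⟩ := hP F v ϖ hϖ hR V ρ x hx
  have h3 : v (a * b) < 1 := by
    rw [map_mul]
    exact lt_of_le_of_lt (mul_le_of_le_one_right' hb) ha
  have h4 : v b * exp (-j) < 1 := by
    refine lt_of_le_of_lt (mul_le_of_le_one_left' hb) ?_
    rw [← exp_zero, exp_lt_exp]; omega
  refine ⟨by rw [rho_nU_om, h2 a b j h3 h4], ?_⟩
  rw [map_div₀]
  have h5 : v (1 + a * b) = 1 := by
    rw [Valuation.map_add_eq_of_lt_left _ (by rw [map_one]; exact h3), map_one]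
  rw [h5, div_one]
  exact ha

/-- `Pop` on the second kind -/
theorem Pop_B2 {r l u : ℤ} (hr : 0 ≤ r) (hl : 1 ≤ l) (n : ℕ) {y : V}
    (hy : y ∈ Submodule.span ℂ (B2 v ϖ ρ s l u)) :
    ∃ y' ∈ Submodule.span ℂ (B2 v ϖ ρ s l u), Pop ϖ ρ r n (ρ om y) = ρ om y' := by
  have h1 := Pop_mem (ρ := ρ) (ϖ := ϖ) r ((Submodule.span ℂ (B2 v ϖ ρ s l u)).map (ρ om)) n ?_
    (ρ om y) ⟨y, hy, rfl⟩
  · obtain ⟨y', hy', h2⟩ := h1
    exact ⟨y', hy', h2.symm⟩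
  · intro i z hz
    obtain ⟨z, hz, rfl⟩ := hz
    refine Submodule.span_induction ?_ ?_ ?_ ?_ hz
    · rintro w ⟨x, hx, a, j, ha, h2, h3, rfl⟩
      have hb : v ((ϖ ^ (r + (i : ℤ)) : Fˣ) : F) ≤ 1 := by
        rw [v_zpow hϖ, ← exp_zero, exp_le_exp]; omega
      obtain ⟨h4, h5⟩ := lower_B2 hP hϖ hR (hs x hx) ha hb (hl.trans h2)
      rw [h4]
      exact ⟨_, Submodule.subset_span ⟨x, hx, _, j, h5, h2, h3, rfl⟩, rfl⟩
    · rw [map_zero, map_zero]; exact Submodule.zero_mem _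
    · intro y z _ _ h1 h2
      rw [map_add, map_add]; exact Submodule.add_mem _ h1 h2
    · intro c y _ h1
      rw [map_smul, map_smul]; exact Submodule.smul_mem _ _ h1

end avg

theorem nU_mem_Gr {b : F} {r : ℕ} (hb : v b ≤ exp (-(r : ℤ))) : nU b ∈ Gr v r := by
  have hb1 : v b ≤ 1 := hb.trans (by rw [← exp_zero, exp_le_exp]; omega)
  have hb2 : v b ≤ (exp (r : ℤ))⁻¹ := by rw [← exp_neg]; exact hb
  refine ⟨fun i j => ?_, fun i j => ?_⟩
  · have e : ((nU b)⁻¹ : GL (Fin 2) F) = nU (-b) := by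
      rw [inv_eq_iff_mul_eq_one]
      ext i j
      fin_cases i <;> fin_cases j <;> simp [nU, Matrix.mul_apply, Fin.sum_univ_two]
    rw [e]
    fin_cases i <;> fin_cases j <;> simp [nU, hb1]
  · fin_cases i <;> fin_cases j <;> simp [nU, hb2]

theorem lower_mem_Gr {b : F} {r : ℕ} (hb : v b ≤ exp (-(r : ℤ))) : om * nU b * om ∈ Gr v r := by
  have hb1 : v b ≤ 1 := hb.trans (by rw [← exp_zero, exp_le_exp]; omega)
  have hb2 : v b ≤ (exp (r : ℤ))⁻¹ := by rw [← exp_neg]; exact hb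
  have e0 : ∀ c : F, ((om * nU c * om : GL (Fin 2) F) : Matrix (Fin 2) (Fin 2) F) =
      !![1, 0; c, 1] := by
    intro c
    ext i j
    fin_cases i <;> fin_cases j <;> simp [nU, om, Matrix.mul_apply, Fin.sum_univ_two]
  have e : ((om * nU b * om)⁻¹ : GL (Fin 2) F) = om * nU (-b) * om := by
    rw [inv_eq_iff_mul_eq_one]
    apply Units.ext
    rw [Units.val_mul, e0, e0]
    ext i j
    fin_cases i <;> fin_cases j <;> simp [Matrix.mul_apply, Fin.sum_univ_two]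
  refine ⟨fun i j => ?_, fun i j => ?_⟩
  · rw [e]
    have h1 : (om * nU b * om : GL (Fin 2) F) i j = !![(1 : F), 0; b, 1] i j := by rw [← e0]
    have h2 : (om * nU (-b) * om : GL (Fin 2) F) i j = !![(1 : F), 0; -b, 1] i j := by rw [← e0]
    rw [h1, h2]
    fin_cases i <;> fin_cases j <;> simp [hb1]
  · have h1 : (om * nU b * om : GL (Fin 2) F) i j = !![(1 : F), 0; b, 1] i j := by rw [← e0]
    rw [h1]
    fin_cases i <;> fin_cases j <;> simp [hb2]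

theorem om_mem_GO : (om : GL (Fin 2) F) ∈ GO v := by
  intro i j
  have e : ((om : GL (Fin 2) F)⁻¹ : GL (Fin 2) F) = om := by
    rw [inv_eq_iff_mul_eq_one, om_om]
  rw [e]
  fin_cases i <;> fin_cases j <;> simp [om]

end Pool.Agent.T2h60.LL
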